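import Pool.Agent.Results.MP_61a569_nt.PositiveProportion
import Pool.Agent.V11285.SR

/-!
# The members of sparse sequences

There is `κ > 0` such that for all `c > 1` and all `α > 0` outside a set of Hausdorff dimension less than `1` the number
`m = ⌊α n ^ c⌋` has the following property for at least `κ N` of the `n ≤ N`, for all large `N`: there are at least
`m / (log m) ^ 14` integers `k`, `1 ≤ k < m - 2`, for which `q = φ(k) + φ(m - k) / 2 + 1` is prime, while each of
`p_q - q - 1` and `p_q - q + 1` has at most `(log m) ^ 11` divisors.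
-/

set_option autoImplicit false

namespace Pool.Agent.Results.MP_61a569_nt.SparseSequences

open Filter
open Pool.Agent.Results.MP_61a569_nt.PositiveProportion (goodK)

/-- The integer `m` has many `k` as in `goodK`. -/
def Rich (m : ℕ) : Prop := 32 ≤ m ∧ (m : ℝ) / Real.log m ^ 14 ≤ ((goodK m).ncard : ℝ)

/-- **A positive proportion of the members of the sequences `⌊α n ^ c⌋`.** -/
theorem result : ∃ κ : ℝ, 0 < κ ∧
    ∀ c : ℝ, 1 < c → ∃ E : Set ℝ, dimH E < 1 ∧ ∀ α : ℝ, 0 < α → α ∉ E → ∀ᶠ N : ℕ in atTop,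
      κ * N ≤ ({n : ℕ | 1 ≤ n ∧ n ≤ N ∧ Rich ⌊α * (n : ℝ) ^ c⌋₊}.ncard : ℝ) := by
  obtain ⟨κ, hκ, h⟩ := PositiveProportion.result
  refine ⟨κ / 2, by positivity, fun c hc => ?_⟩
  obtain ⟨E, hE, hs⟩ := Pool.Agent.V11285.SR.lower c hc (fun _ : Unit => Rich)
  refine ⟨E, hE, fun α hα hαE => ?_⟩
  have hlow : ∀ᶠ x : ℕ in atTop, κ * x ≤ (({n : ℕ | 1 ≤ n ∧ n ≤ x ∧ Rich n}.ncard : ℕ) : ℝ) := by
    filter_upwards [h] with x hx
    refine hx.trans (le_of_eq ?_)
    rw [Nat.cast_inj]
    congr 1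
    ext n
    simp only [Set.mem_ofPred_eq, Rich]
    constructor
    · rintro ⟨h1, h2, h3⟩
      exact ⟨by omega, h2, h1, h3⟩
    · rintro ⟨_, h2, h1, h3⟩
      exact ⟨h1, h2, h3⟩
  filter_upwards [hs α hα hαE () κ (κ / 2) (by positivity) hlow] with N hN
  linarith

end Pool.Agent.Results.MP_61a569_nt.SparseSequences
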